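import Pool.Agent.Y245.LR.Stm

/-!
Project LR, BOUJ: Bourget's hypothesis in the real form (helper362)
-/

set_option autoImplicit false

open TH259.NS
open Pool.Agent.Y245.SG (Bn)

namespace Pool.Agent.Y362.LR

theorem Bn_ofReal (m : ℕ) (s : ℝ) : Bn m (s : ℂ) = ((B m s : ℝ) : ℂ) := by
  unfold Bn B
  rw [Complex.ofReal_tsum]
  refine tsum_congr fun k => ?_
  unfold bt
  push_cast
  rw [neg_pow]

theorem bouj : Pool.Agent.Y245.LR.S_BOUJ := by
  intro h t ht h1 N hN hN0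
  rw [J_eq] at h1 hN0
  have ht2 : t / 2 ≠ 0 := by positivity
  have hB1 : B 1 (t ^ 2 / 4) = 0 := (mul_eq_zero.1 h1).resolve_left (pow_ne_zero _ ht2)
  have hBN : B N (t ^ 2 / 4) = 0 := (mul_eq_zero.1 hN0).resolve_left (pow_ne_zero _ ht2)
  refine h N ((t ^ 2 / 4 : ℝ) : ℂ) hN ?_ ⟨?_, ?_⟩
  · rw [Ne, Complex.ofReal_eq_zero]
    positivity
  · rw [Bn_ofReal, hB1, Complex.ofReal_zero]
  · rw [Bn_ofReal, hBN, Complex.ofReal_zero]

end Pool.Agent.Y362.LR
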